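import Pool.Agent.Helper82.Eq6

set_option autoImplicit false

namespace Pool.Agent.Results.MP_5e4080_gt.AllSmallEccentricities

open Set Metric

/-- Euclidean space `E^n`. -/
abbrev E (n : ℕ) := EuclideanSpace ℝ (Fin n)

/-- A body: a compact set equal to the closure of its interior. -/
def IsBody {n : ℕ} (L : Set (E n)) : Prop := IsCompact L ∧ closure (interior L) = L

/-- The radial function of `L` seen from `p` (that is, of `L - p` at the origin):
`max {c ≥ 0 : p + c u ∈ L}`. -/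
noncomputable def radial {n : ℕ} (L : Set (E n)) (p u : E n) : ℝ :=
  sSup {c : ℝ | 0 ≤ c ∧ p + c • u ∈ L}

/-- `L - p` is a star body: `L` is compact, star-shaped with respect to `p`, and its radial
function about `p` is attained as a maximum, positive and continuous on the unit sphere. -/
def IsStarBodyAt {n : ℕ} (L : Set (E n)) (p : E n) : Prop :=
  IsCompact L ∧ StarConvex ℝ p L ∧
    (∀ u : E n, ‖u‖ = 1 →
      IsGreatest {c : ℝ | 0 ≤ c ∧ p + c • u ∈ L} (radial L p u) ∧ 0 < radial L p u) ∧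
    ContinuousOn (radial L p) (Metric.sphere 0 1)

open Classical in
/-- The `i`-chord function of `L` at `p`. -/
noncomputable def chordFn {n : ℕ} (i : ℝ) (L : Set (E n)) (p u : E n) : ℝ :=
  if i = 0 then radial L p u * radial L p (-u)
  else (1 / 2) * (radial L p u ^ i + radial L p (-u) ^ i)

/-- `p` is an `i`-equichordal point of `L` (with constant `a`). -/
def IsEquichordal {n : ℕ} (i : ℝ) (L : Set (E n)) (p : E n) (a : ℝ) : Prop :=
  p ∈ interior L ∧ IsStarBodyAt L p ∧ 0 < a ∧ ∀ u : E n, ‖u‖ = 1 → chordFn i L p u = a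

open Pool.Agent.Helper82.Eq

theorem equi_aux {n : ℕ} {i B : ℝ} (hi0 : i ≠ 0) (hB : 0 < B) (g : ℝ → ℝ) (hg : ∀ x, 0 < g x)
    (hc : Continuous g) (hs : ∀ c, -1 ≤ c → c ≤ 1 → g c ^ i + g (-c) ^ i = 2 * B ^ i)
    {e : E n} (he : ‖e‖ = 1) (q : E n) : IsEquichordal i (Lset g e q) q (B ^ i) := by
  have hr : ∀ u : E n, ‖u‖ = 1 → radial (Lset g e q) q u = g (inner ℝ e u) := fun u hu =>
    radial_eq hg q hu
  refine ⟨Lset_center hg hc he q, ⟨Lset_compact hg hc he q, ?_, ?_, ?_⟩,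
    Real.rpow_pos_of_pos hB i, ?_⟩
  · rw [starConvex_iff_forall_pos (by exact interior_subset (Lset_center hg hc he q))]
    intro y hy a b ha hb hab
    have := Lset_star hg he q hy hb.le (by linarith)
    have e : a • q + b • y = q + b • (y - q) := by
      rw [show a = 1 - b by linarith, sub_smul, one_smul, smul_sub]
      abel
    rw [e]; exact this
  · intro u hu
    rw [hr u hu]
    refine ⟨⟨⟨(hg _).le, (mem_ray hg hu (hg _).le).mpr le_rfl⟩, ?_⟩, hg _⟩
    rintro c ⟨h1, h2⟩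
    exact (mem_ray hg hu h1).mp h2
  · have h1 : ContinuousOn (fun u : E n => g (inner ℝ e u)) (Metric.sphere 0 1) :=
      (hc.comp (by fun_prop : Continuous fun u : E n => inner ℝ e u)).continuousOn
    refine h1.congr fun u hu => ?_
    exact hr u (by simpa using hu)
  · intro u hu
    have h2 := cos_mem he hu
    unfold chordFn
    rw [if_neg hi0, hr u hu, hr (-u) (by rwa [norm_neg]), inner_neg_right, hs _ h2.1 h2.2]
    ring

theorem Xb_bounds {i B : ℝ} (h : Par i B) (c : ℝ) : B - 1 ≤ Xb h c ∧ Xb h c ≤ B + 1 := by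
  have h1 := ell_lo h
  have h2 := ell_hi h
  unfold Xb
  split_ifs
  · constructor <;> linarith
  · constructor <;> linarith
  · rcases le_total 0 (c / √(1 - c ^ 2)) with hs | hs
    · obtain ⟨b1, b2, -⟩ := Xf_bounds h hs
      constructor <;> linarith
    · obtain ⟨-, -, b3, b4, -⟩ := Xf_bounds h (s := -(c / √(1 - c ^ 2))) (by linarith)
      rw [neg_neg] at b3 b4
      constructor <;> linarith

theorem Lset_scale {n : ℕ} {g : ℝ → ℝ} {d : ℝ} (hd : 0 < d) (e q q' w : E n) :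
    q + d • w ∈ Lset (fun c => d * g c) e q ↔ q' + w ∈ Lset g e q' := by
  simp only [Lset, mem_ofPred_eq, add_sub_cancel_left, norm_smul, inner_smul_right,
    Real.norm_of_nonneg hd.le]
  rw [mul_div_mul_left _ _ hd.ne', mul_le_mul_iff_right₀ hd]

theorem key' {n : ℕ} {i B : ℝ} (h : Par i B) {e : E n} (he : ‖e‖ = 1) {d : ℝ} (hd : 0 < d)
    {p q : E n} (hq : q = p + d • e) :
    Lset (fun c => d * Xb h c) e q = Lset (fun c => d * Xb h (-c)) e p := by
  have hk := key h he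
  ext z
  have hz : z = q + d • (d⁻¹ • (z - q)) := by
    rw [smul_smul, mul_inv_cancel₀ hd.ne', one_smul]; abel
  have hz2 : z = p + d • (d⁻¹ • (z - q) + e) := by
    rw [smul_add, smul_smul, mul_inv_cancel₀ hd.ne', one_smul, hq]; abel
  constructor
  · intro hm
    rw [hz] at hm
    have h1 := (Lset_scale (g := Xb h) hd e q ((1/2 : ℝ) • e) (d⁻¹ • (z - q))).mp hm
    rw [hk] at h1
    have e1 : (1/2 : ℝ) • e + d⁻¹ • (z - q) = -((1/2 : ℝ) • e) + (d⁻¹ • (z - q) + e) := by
      have : e = (1/2 : ℝ) • e + (1/2 : ℝ) • e := by rw [← add_smul]; norm_num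
      nth_rewrite 3 [this]; abel
    rw [e1] at h1
    rw [hz2]
    exact (Lset_scale (g := fun c => Xb h (-c)) hd e p (-((1/2 : ℝ) • e)) _).mpr h1
  · intro hm
    rw [hz2] at hm
    have h1 := (Lset_scale (g := fun c => Xb h (-c)) hd e p (-((1/2 : ℝ) • e)) _).mp hm
    rw [← hk] at h1
    have e1 : (1/2 : ℝ) • e + d⁻¹ • (z - q) = -((1/2 : ℝ) • e) + (d⁻¹ • (z - q) + e) := by
      have : e = (1/2 : ℝ) • e + (1/2 : ℝ) • e := by rw [← add_smul]; norm_num
      nth_rewrite 3 [this]; abel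
    rw [← e1] at h1
    rw [hz]
    exact (Lset_scale (g := Xb h) hd e q ((1/2 : ℝ) • e) (d⁻¹ • (z - q))).mpr h1

/-- the cosine in terms of distances -/
theorem inner_dist {n : ℕ} {e p q z : E n} (he : ‖e‖ = 1) {d : ℝ} (hd : 0 < d)
    (hq : q = p + d • e) : inner ℝ e (z - q) = (‖z - p‖ ^ 2 - d ^ 2 - ‖z - q‖ ^ 2) / (2 * d) := by
  have e1 : z - p = (z - q) + d • e := by rw [hq]; abel
  have e2 : ‖z - p‖ ^ 2 = ‖z - q‖ ^ 2 + 2 * (d * inner ℝ e (z - q)) + d ^ 2 := by
    rw [e1, norm_add_sq_real, inner_smul_right, norm_smul, he, mul_one,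
      Real.norm_of_nonneg hd.le, real_inner_comm]
  rw [e2]
  field_simp
  ring

theorem inner_dist' {n : ℕ} {e p q z : E n} (he : ‖e‖ = 1) {d : ℝ} (hd : 0 < d)
    (hq : q = p + d • e) :
    -inner ℝ e (z - p) = (‖z - q‖ ^ 2 - d ^ 2 - ‖z - p‖ ^ 2) / (2 * d) := by
  have e1 : z - q = (z - p) - d • e := by rw [hq]; abel
  have e2 : ‖z - q‖ ^ 2 = ‖z - p‖ ^ 2 - 2 * (d * inner ℝ e (z - p)) + d ^ 2 := by
    rw [e1, norm_sub_sq_real, inner_smul_right, norm_smul, he, mul_one,
      Real.norm_of_nonneg hd.le, real_inner_comm]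
  rw [e2]
  field_simp
  ring

/-- the end of a chord of a ball -/
theorem ball_end {n : ℕ} {w u : E n} (hu : ‖u‖ = 1) {a r : ℝ} (ha : 0 ≤ a)
    (h : ∀ t : ℝ, 0 ≤ t → (‖w + t • u‖ ≤ r ↔ t ≤ a)) : ‖w‖ ^ 2 + 2 * a * inner ℝ w u + a ^ 2
      = r ^ 2 := by
  have h1 : ‖w + a • u‖ ≤ r := (h a ha).mpr le_rfl
  have h2 : ‖w + a • u‖ = r := by
    rcases h1.eq_or_lt with he | hl
    · exact he
    exfalso
    set δ := r - ‖w + a • u‖ with hδ
    have hδ0 : 0 < δ := by rw [hδ]; linarith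
    have h3 : ‖w + (a + δ) • u‖ ≤ r := by
      have e1 : w + (a + δ) • u = (w + a • u) + δ • u := by rw [add_smul]; abel
      rw [e1]
      refine (norm_add_le _ _).trans ?_
      rw [norm_smul, hu, mul_one, Real.norm_of_nonneg hδ0.le]
      rw [hδ]; linarith
    have := (h (a + δ) (by linarith)).mp h3
    linarith
  rw [← h2, norm_add_sq_real, inner_smul_right, norm_smul, hu, mul_one,
    Real.norm_of_nonneg ha]
  ring

theorem ball_power {n : ℕ} {w u : E n} (hu : ‖u‖ = 1) {a b r : ℝ} (ha : 0 < a) (hb : 0 < b)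
    (h : ∀ t : ℝ, 0 ≤ t → (‖w + t • u‖ ≤ r ↔ t ≤ a))
    (h' : ∀ t : ℝ, 0 ≤ t → (‖w + t • (-u)‖ ≤ r ↔ t ≤ b)) : a * b = r ^ 2 - ‖w‖ ^ 2 := by
  have h1 := ball_end hu ha.le h
  have h2 := ball_end (u := -u) (by rwa [norm_neg]) hb.le h'
  rw [inner_neg_right] at h2
  have h3 : (a + b) * (a * b) = (a + b) * (r ^ 2 - ‖w‖ ^ 2) := by
    linear_combination b * h1 + a * h2
  exact mul_left_cancel₀ (by linarith : a + b ≠ 0) h3

/-- **Two `i`-equichordal points, for every `i < 1`, `i ≠ 0`, and all small eccentricities.**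
Let `p ≠ q` be points of `E^n`, `n ≥ 2`, and let `ρ ≥ 8 |p - q|` and, if `0 < i`,
`ρ (1 - i) ≥ 8 |p - q|`. There is a body `L` for which both `p` and `q` are `i`-equichordal points
with the constant `ρ ^ i`; it lies between the balls of radius `ρ - |p - q|` and `ρ + |p - q|`
about `p` and about `q`, it is invariant under all isometries of the space which fix or exchange
`p` and `q`, and it is not a ball. -/
theorem result (i : ℝ) (hi : i < 1) (hi0 : i ≠ 0) (n : ℕ) (hn : 2 ≤ n) (p q : E n) (hpq : p ≠ q)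
    (ρ : ℝ) (hρ : 8 * dist p q ≤ ρ) (hρi : 0 < i → 8 * dist p q ≤ ρ * (1 - i)) :
    ∃ L : Set (E n), IsBody L ∧ IsEquichordal i L p (ρ ^ i) ∧ IsEquichordal i L q (ρ ^ i) ∧
      closedBall p (ρ - dist p q) ⊆ L ∧ L ⊆ closedBall p (ρ + dist p q) ∧
      closedBall q (ρ - dist p q) ⊆ L ∧ L ⊆ closedBall q (ρ + dist p q) ∧
      (∀ σ : E n ≃ᵢ E n, (σ p = p ∧ σ q = q) ∨ (σ p = q ∧ σ q = p) → σ '' L = L) ∧
      ∀ (c : E n) (r : ℝ), L ≠ closedBall c r := by
  set d : ℝ := dist p q with hd_def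
  have hd : 0 < d := dist_pos.mpr hpq
  have hρ0 : 0 < ρ := by linarith
  have h : Par i (ρ / d) := by
    refine ⟨hi, hi0, ?_, ?_⟩
    · rw [le_div_iff₀ hd]; exact hρ
    · intro h0
      rw [div_mul_eq_mul_div, le_div_iff₀ hd]
      exact hρi h0
  set e : E n := d⁻¹ • (q - p) with he_def
  have he : ‖e‖ = 1 := by
    rw [he_def, norm_smul, norm_inv, Real.norm_of_nonneg hd.le, ← dist_eq_norm, dist_comm,
      ← hd_def, inv_mul_cancel₀ hd.ne']
  have hq : q = p + d • e := by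
    rw [he_def, smul_smul, mul_inv_cancel₀ hd.ne', one_smul]; abel
  set g : ℝ → ℝ := fun c => d * Xb h c with hg_def
  set g' : ℝ → ℝ := fun c => d * Xb h (-c) with hg'_def
  have hg : ∀ x, 0 < g x := fun x => mul_pos hd (Xb_pos h x)
  have hg' : ∀ x, 0 < g' x := fun x => mul_pos hd (Xb_pos h (-x))
  have hgc : Continuous g := continuous_const.mul (Xb_cont h)
  have hgc' : Continuous g' := continuous_const.mul ((Xb_cont h).comp continuous_neg)
  have hdB : d * (ρ / d) = ρ := by field_simp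
  have hsum : ∀ c, -1 ≤ c → c ≤ 1 → g c ^ i + g (-c) ^ i = 2 * ρ ^ i := by
    intro c h1 h2
    rw [hg_def]
    simp only
    rw [Real.mul_rpow hd.le (Xb_pos h _).le, Real.mul_rpow hd.le (Xb_pos h _).le, ← mul_add,
      Xb_sum h h1 h2, ← hdB, Real.mul_rpow hd.le (by positivity), hdB]
    ring
  set L : Set (E n) := Lset g e q with hL
  have hL' : L = Lset g' e p := key' h he hd hq
  have hb : ∀ c, ρ - d ≤ g c ∧ g c ≤ ρ + d := by
    intro c
    obtain ⟨h1, h2⟩ := Xb_bounds h c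
    have h3 := mul_le_mul_of_nonneg_left h1 hd.le
    have h4 := mul_le_mul_of_nonneg_left h2 hd.le
    rw [mul_sub, hdB, mul_one] at h3
    rw [mul_add, hdB, mul_one] at h4
    exact ⟨h3, h4⟩
  -- membership in terms of distances
  have hm1 : ∀ z, z ∈ L ↔ ‖z - q‖ ≤ g ((‖z - p‖ ^ 2 - d ^ 2 - ‖z - q‖ ^ 2) / (2 * d) / ‖z - q‖) := by
    intro z
    rw [← inner_dist he hd hq]
    rfl
  have hm2 : ∀ z, z ∈ L ↔ ‖z - p‖ ≤ g ((‖z - q‖ ^ 2 - d ^ 2 - ‖z - p‖ ^ 2) / (2 * d) / ‖z - p‖) := by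
    intro z
    rw [← inner_dist' he hd hq, neg_div, hL']
    rfl
  have hinv : ∀ σ : E n ≃ᵢ E n, (σ p = p ∧ σ q = q) ∨ (σ p = q ∧ σ q = p) →
      ∀ z ∈ L, σ z ∈ L := by
    intro σ hσ z hz
    have hn : ∀ x, ‖σ z - σ x‖ = ‖z - x‖ := fun x => by
      rw [← dist_eq_norm, ← dist_eq_norm, σ.dist_eq]
    rcases hσ with ⟨s1, s2⟩ | ⟨s1, s2⟩
    · have n1 := hn p
      have n2 := hn q
      rw [s1] at n1
      rw [s2] at n2
      rw [hm1, n1, n2, ← hm1]
      exact hz
    · have n1 := hn p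
      have n2 := hn q
      rw [s1] at n1
      rw [s2] at n2
      rw [hm1, n1, n2, ← hm2]
      exact hz
  refine ⟨L, ⟨Lset_compact hg hgc he q, Lset_body hg hgc he q⟩, ?_,
    equi_aux hi0 hρ0 g hg hgc hsum he q, ?_, ?_, ?_, ?_, ?_, ?_⟩
  · rw [hL']
    refine equi_aux hi0 hρ0 g' hg' hgc' (fun c h1 h2 => ?_) he p
    exact hsum (-c) (by linarith) (by linarith)
  · intro z hz
    rw [mem_closedBall, dist_eq_norm] at hz
    rw [hL']
    exact hz.trans (hb _).1
  · intro z hz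
    rw [hL'] at hz
    rw [mem_closedBall, dist_eq_norm]
    exact le_trans hz (hb _).2
  · intro z hz
    rw [mem_closedBall, dist_eq_norm] at hz
    exact hz.trans (hb _).1
  · intro z hz
    rw [mem_closedBall, dist_eq_norm]
    exact le_trans hz (hb _).2
  · intro σ hσ
    apply Subset.antisymm
    · rintro _ ⟨z, hz, rfl⟩
      exact hinv σ hσ z hz
    · intro z hz
      refine ⟨σ.symm z, hinv σ.symm ?_ z hz, σ.apply_symm_apply z⟩
      rcases hσ with ⟨s1, s2⟩ | ⟨s1, s2⟩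
      · left
        exact ⟨by rw [σ.symm_apply_eq, s1], by rw [σ.symm_apply_eq, s2]⟩
      · right
        exact ⟨by rw [σ.symm_apply_eq, s2], by rw [σ.symm_apply_eq, s1]⟩
  · intro c r hcr
    have hray : ∀ u : E n, ‖u‖ = 1 → ∀ t : ℝ, 0 ≤ t →
        (‖(q - c) + t • u‖ ≤ r ↔ t ≤ g (inner ℝ e u)) := by
      intro u hu t ht
      rw [← mem_ray hg hu ht (e := e) (q := q), ← hL, hcr, mem_closedBall, dist_eq_norm]
      have : q - c + t • u = q + t • u - c := by abel
      rw [this]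
    have hpow : ∀ u : E n, ‖u‖ = 1 →
        g (inner ℝ e u) * g (-(inner ℝ e u)) = r ^ 2 - ‖q - c‖ ^ 2 := by
      intro u hu
      refine ball_power hu (hg _) (hg _) (hray u hu) ?_
      have := hray (-u) (by rwa [norm_neg])
      rw [inner_neg_right] at this
      exact this
    -- a direction orthogonal to the axis
    obtain ⟨u, hu, heu⟩ : ∃ u : E n, ‖u‖ = 1 ∧ inner ℝ e u = 0 := by
      have hfr := Submodule.finrank_add_finrank_orthogonal (𝕜 := ℝ) (Submodule.span ℝ {e})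
      have he0 : e ≠ 0 := by
        intro h0; rw [h0, norm_zero] at he; exact zero_ne_one he
      rw [finrank_span_singleton he0, finrank_euclideanSpace, Fintype.card_fin] at hfr
      have hne : (Submodule.span ℝ {e})ᗮ ≠ ⊥ := by
        intro hbot
        rw [hbot, finrank_bot] at hfr
        omega
      obtain ⟨v, hv, hv0⟩ := Submodule.exists_mem_ne_zero_of_ne_bot hne
      have hev : inner ℝ e v = 0 :=
        (Submodule.mem_orthogonal _ _).mp hv e (Submodule.mem_span_singleton_self e)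
      have hvn : ‖v‖ ≠ 0 := norm_ne_zero_iff.mpr hv0
      refine ⟨‖v‖⁻¹ • v, ?_, ?_⟩
      · rw [norm_smul, norm_inv, norm_norm, inv_mul_cancel₀ hvn]
      · rw [inner_smul_right, hev, mul_zero]
    have h1 := hpow u hu
    have h2 := hpow e he
    have hee : inner ℝ e e = (1:ℝ) := by rw [real_inner_self_eq_norm_sq, he]; norm_num
    rw [heu, neg_zero] at h1
    rw [hee] at h2
    have hg0 : g 0 = ρ := by
      have h3 := hsum 0 (by norm_num) (by norm_num)
      rw [neg_zero] at h3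
      have h4 : g 0 ^ i = ρ ^ i := by linarith
      exact (Real.rpow_left_inj (hg 0).le hρ0.le hi0).mp h4
    rw [hg0] at h1
    have h5 : g 1 * g (-1) = ρ * ρ := by rw [h1, h2]
    have h6 := hsum 1 (by norm_num) le_rfl
    have h7 : g 1 ^ i * g (-1) ^ i = ρ ^ i * ρ ^ i := by
      rw [← Real.mul_rpow (hg _).le (hg _).le, h5, Real.mul_rpow hρ0.le hρ0.le]
    have h8 : (g 1 ^ i - g (-1) ^ i) ^ 2 = 0 := by
      linear_combination (g 1 ^ i + g (-1) ^ i + 2 * ρ ^ i) * h6 - 4 * h7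
    have h9 : g 1 ^ i = g (-1) ^ i := by
      have := pow_eq_zero_iff two_ne_zero |>.mp h8
      linarith
    have h10 : g 1 = g (-1) := (Real.rpow_left_inj (hg _).le (hg _).le hi0).mp h9
    have h11 : g 1 = d * ell h := by rw [hg_def]; simp only; rw [Xb_one]
    have h12 : g (-1) = d * (ell h + 1) := by rw [hg_def]; simp only; rw [Xb_neg_one]
    rw [h11, h12] at h10
    nlinarith

end Pool.Agent.Results.MP_5e4080_gt.AllSmallEccentricities
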